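import Pool.Agent.helper81.NW.Spec

set_option autoImplicit false

namespace Pool.Agent.helper81.NW

open Pool.Agent.helper84.NR
open scoped Classical
open Finset

/-- the first shared index above the gap -/
noncomputable def HXG_nx {V F : Type} (M : PMap V F) (x y : V) (c : (_ : F) × ℕ) : ℕ :=
  sInf {b : ℕ | c.2 < b ∧ sh M x y c.1 b}

/-- the two candidates of a gap -/
noncomputable def HXG_phi {V F : Type} (M : PMap V F) (x y : V) (p : ((_ : F) × ℕ) × Bool) :
    (_ : V) × Sym2 V :=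
  if p.2 = true then ⟨ww M y p.1.1 p.1.2, ge M y p.1⟩
  else ⟨ww M y p.1.1 (HXG_nx M x y p.1),
    s(ww M y p.1.1 (HXG_nx M x y p.1 - 1), ww M y p.1.1 (HXG_nx M x y p.1))⟩

theorem HXG_ngo {V F : Type} (M : PMap V F) (x y : V) (B g' A : F) (k : ℕ) (hB : OnV M.toCyc B y)
    (hA : OnV M.toCyc A x) (hg' : g' ≠ B)
    (hE : OnE M.toCyc g' s(ww M y B k, ww M y B (k + 1))) (hc : CL M x y g' A) :
    ¬ go M x y ⟨B, k⟩ := by
  rintro ⟨g2, hg2, hox, hoy⟩
  have hBe : OnE M.toCyc B s(ww M y B k, ww M y B (k + 1)) := ⟨st M y B + k, rfl⟩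
  obtain ⟨g0, hg0, -, hall⟩ := M.two _ B hBe
  have h1 : g' = g0 := (hall g' hE).resolve_left hg'
  rcases hall g2 hg2 with h | h
  · exact hoy B hB (by rw [h]; rfl)
  · rw [← h1] at h
    exact hox A hA (by rw [h]; exact hc.symm)

theorem HXG (hWDN : WDN_stmt) : HXG_stmt := by
  intro V F _ _ M x y hN
  rw [← card_sigma univ (fun v => HX M x y v)]
  have hsub : (univ.sigma (fun v => HX M x y v) : Finset ((_ : V) × Sym2 V)) ⊆
      (((gps M x y).filter (fun c => ¬ go M x y c)) ×ˢ (univ : Finset Bool)).image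
        (HXG_phi M x y) := by
    rintro ⟨v, h⟩ hvh
    simp only [mem_sigma, mem_univ, true_and, HX, mem_filter] at hvh
    obtain ⟨⟨⟨A0, hA0x, hA0v⟩, -⟩, hvh, ⟨B, hB, k, hk, rfl⟩, hnx, g, A, hg, hgy, hA, hCL⟩ := hvh
    have hgB : g ≠ B := by
      rintro rfl
      exact hgy hB
    obtain ⟨⟨a, hak, hsa⟩, b, hkb, hb⟩ := hk
    have ha1 : 1 ≤ a := hsa.1
    have hbl : b < M.len B := hb.2.1
    rw [mem_image]
    rcases Sym2.mem_iff.1 hvh with hv | hv
    · refine ⟨(⟨B, k⟩, true), ?_, ?_⟩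
      · have hFA : B ∈ FA M y x := by
          simp only [FA, mem_filter, mem_univ, true_and]
          exact ⟨hB, A0, v, hA0x, ⟨st M y B + k, hv.symm⟩, hA0v⟩
        have hgp : gp M x y B k := by
          refine ⟨⟨by omega, by omega, A0, hA0x, ?_⟩, ⟨b, hkb, hb⟩, ?_⟩
          · rw [← hv]; exact hA0v
          · rintro ⟨A', hA', hA'e⟩
            exact hnx ⟨A', hA', hA'e⟩
        simp only [mem_product, mem_filter, mem_univ, and_true, gps, gaps, mem_sigma, mem_range]
        exact ⟨⟨hFA, by omega, hgp⟩, HXG_ngo M x y B g A k hB hA hgB hg hCL⟩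
      · simp only [HXG_phi, if_true]
        rw [hv]
        rfl
    · have hshk : sh M x y B (k + 1) :=
        ⟨by omega, by omega, A0, hA0x, by rw [← hv]; exact hA0v⟩
      obtain ⟨k1, hk1, hns, hgp, g', hg'B, hg', hCL'⟩ := hWDN V F M x y hN.ne B hB k
        ⟨⟨a, hak, hsa⟩, b, hkb, hb⟩ hnx g hgB hg
      have hCL2 : CL M x y g' A := hCL'.trans hCL
      have hnxt : HXG_nx M x y ⟨B, k1⟩ = k + 1 := by
        unfold HXG_nx
        apply le_antisymm
        · exact Nat.sInf_le ⟨by simp only; omega, hshk⟩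
        · have hne : {b : ℕ | k1 < b ∧ sh M x y B b}.Nonempty := ⟨k + 1, by omega, hshk⟩
          have h1 := Nat.sInf_mem hne
          by_contra hlt
          exact hns _ h1.1 (by simp only at hlt ⊢; omega) h1.2
      refine ⟨(⟨B, k1⟩, false), ?_, ?_⟩
      · have hFA : B ∈ FA M y x := by
          simp only [FA, mem_filter, mem_univ, true_and]
          exact ⟨hB, A0, v, hA0x, ⟨st M y B + (k + 1), hv.symm⟩, hA0v⟩
        simp only [mem_product, mem_filter, mem_univ, and_true, gps, gaps, mem_sigma, mem_range]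
        exact ⟨⟨hFA, hgp.1.2.1, hgp⟩, HXG_ngo M x y B g' A k1 hB hA hg'B hg' hCL2⟩
      · simp only [HXG_phi, Bool.false_eq_true, if_false, hnxt]
        rw [hv]
        rfl
  refine (card_le_card hsub).trans (card_image_le.trans ?_)
  rw [card_product]
  simp [mul_comm]

end Pool.Agent.helper81.NW
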